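import Mathlib
import Pool.Agent.H452R2.PO.Defs
import Pool.Agent.H452R2.Om.Count
import Pool.Agent.H383.Rich
import Pool.Agent.Helper256.KM.Mertens

set_option autoImplicit false

namespace Pool.Agent.H327R5.PO

open Finset Pool.Agent.H452R2.PO
open Pool.Agent.H452R2.Om (cs_sum_w cs_markov cs_log_prod cs_sigma_inj)

theorem count_k (z : ℝ) (hz : 1 ≤ z) (A : ℕ) (hA : z ≤ A) (hA3 : 3 ≤ A)
    (hM : ∃ c : ℝ, 0 < c ∧ ∀ y : ℕ, 3 ≤ y → c * (Real.log y) ^ z ≤ ∏ p ∈ OQ A y, (1 + z / p)) :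
    ∃ c Y0 : ℝ, 0 < c ∧ 3 ≤ Y0 ∧ ∀ Y : ℝ, Y0 ≤ Y → ∃ 𝓢 : Finset (Finset ℕ),
      (∀ S ∈ 𝓢, (∀ p ∈ S, p.Prime) ∧
        ((∏ p ∈ S, p : ℕ) : ℝ) ≤ 2 * Y * z ^ S.card ∧ ((∏ p ∈ S, p : ℕ) : ℝ) ≤ Y ^ 2) ∧
      c * Y * (Real.log Y) ^ (z - 1) ≤ (𝓢.card : ℝ) := by
  classical
  obtain ⟨c, hc, hM⟩ := hM
  obtain ⟨C, hC⟩ := Pool.Agent.Helper256.KM.mertens_log
  obtain ⟨y0, hy03, hPB⟩ := Pool.Agent.H383.Rich.PB_card ∅
  have hz0 : 0 < z := by linarith
  set η : ℝ := 1 / (32 * z) with hη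
  have hη0 : 0 < η := by rw [hη]; positivity
  have hηz : z * (2 * η) = 1 / 16 := by rw [hη]; field_simp; norm_num
  have hη2 : 2 * η ≤ 1 / 2 := by nlinarith
  have e1 : ∀ᶠ Y : ℝ in Filter.atTop, 2 ≤ Y ^ η :=
    (tendsto_rpow_atTop hη0).eventually_ge_atTop 2
  have e2 : ∀ᶠ Y : ℝ in Filter.atTop, max y0 (2 * z) ≤ Y ^ (1 / 2 : ℝ) :=
    (tendsto_rpow_atTop (by norm_num)).eventually_ge_atTop _
  have e3 : ∀ᶠ Y : ℝ in Filter.atTop, 16 * z * |C| + 1 ≤ Real.log Y :=
    Real.tendsto_log_atTop.eventually_ge_atTop _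
  obtain ⟨Y0, hY0⟩ := Filter.eventually_atTop.1 (e1.and (e2.and e3))
  refine ⟨(z / 80) * c * η ^ z, max (max 3 z) Y0, by positivity,
    le_trans (le_max_left _ _) (le_max_left _ _), ?_⟩
  intro Y hY
  obtain ⟨h1, h2, h3⟩ := hY0 Y (le_trans (le_max_right _ _) hY)
  have hY3 : 3 ≤ Y := le_trans (le_trans (le_max_left _ _) (le_max_left _ _)) hY
  have hYz : z ≤ Y := le_trans (le_trans (le_max_right _ _) (le_max_left _ _)) hY
  have hYpos : 0 < Y := by linarith
  have h2a : y0 ≤ Y ^ (1 / 2 : ℝ) := le_trans (le_max_left _ _) h2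
  have h2b : 2 * z ≤ Y ^ (1 / 2 : ℝ) := le_trans (le_max_right _ _) h2
  have hsq : Y ^ (1 / 2 : ℝ) * Y ^ (1 / 2 : ℝ) = Y := by
    rw [← Real.rpow_add hYpos]; norm_num
  set R := Y ^ (1 / 2 : ℝ) with hR
  set L := Real.log Y with hL
  have hzC : 0 ≤ 16 * z * |C| := by positivity
  have hL1 : 1 ≤ L := by linarith
  set y : ℕ := ⌊Y ^ (2 * η)⌋₊ with hy
  have hu : Y ^ η * Y ^ η = Y ^ (2 * η) := by
    rw [← Real.rpow_add hYpos]; congr 1; ring
  have hyu : Y ^ η ≤ y := by
    have h := Nat.lt_floor_add_one (Y ^ (2 * η))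
    rw [← hy] at h
    nlinarith
  have hyle : (y : ℝ) ≤ Y ^ (2 * η) := Nat.floor_le (by positivity)
  have hyR : (y : ℝ) ≤ R := hyle.trans
    (Real.rpow_le_rpow_of_exponent_le (by linarith) hη2)
  have hy3 : 3 ≤ y := by
    have h4 : (4 : ℕ) ≤ y := by
      rw [hy]
      refine Nat.le_floor ?_
      push_cast
      nlinarith
    omega
  have hy3' : (3 : ℝ) ≤ y := by exact_mod_cast hy3
  have hlogy1 : L * η ≤ Real.log y := by
    have h := Real.log_le_log (by positivity) hyu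
    rw [Real.log_rpow hYpos] at h
    rw [hL]; linarith
  have hlogy2 : Real.log y ≤ L * (2 * η) := by
    have h := Real.log_le_log (by positivity) hyle
    rw [Real.log_rpow hYpos] at h
    rw [hL]; linarith
  set B := OQ A y with hB
  have hBm : ∀ p ∈ B, p.Prime ∧ A ≤ p ∧ p ≤ y := by
    intro p hp
    rw [hB, OQ, mem_filter, mem_Icc] at hp
    exact ⟨hp.2, hp.1.1, hp.1.2⟩
  have hB1 : ∀ p ∈ B, 1 ≤ p := fun p hp => by have := (hBm p hp).2.1; omega
  -- logarithmic mass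
  have hT : z * ∑ p ∈ B, Real.log p / p ≤ (L / 2) / 2 := by
    have h5 : ∑ p ∈ B, Real.log p / p ≤
        ∑ p ∈ (Finset.Icc 1 y).filter Nat.Prime, Real.log p / p := by
      refine sum_le_sum_of_subset_of_nonneg (fun p hp => ?_) (fun p hp _ => ?_)
      · have := hBm p hp
        rw [mem_filter, mem_Icc]
        exact ⟨⟨by omega, this.2.2⟩, this.1⟩
      · rw [mem_filter, mem_Icc] at hp
        have : (1 : ℝ) ≤ p := by exact_mod_cast hp.1.1
        have := Real.log_nonneg this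
        positivity
    have h6 := (abs_le.1 (hC y (by omega))).2
    have h7 := le_abs_self C
    have h8 : ∑ p ∈ B, Real.log p / p ≤ L * (2 * η) + |C| := by linarith
    calc z * ∑ p ∈ B, Real.log p / p ≤ z * (L * (2 * η) + |C|) :=
          mul_le_mul_of_nonneg_left h8 hz0.le
      _ = L * (z * (2 * η)) + z * |C| := by ring
      _ ≤ (L / 2) / 2 := by rw [hηz]; linarith
  have hmk := cs_markov B z (L / 2) hz0.le (by linarith) hB1 hT
  set G := B.powerset.filter (fun s : Finset ℕ => ∑ p ∈ s, Real.log (p : ℝ) ≤ L / 2) with hG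
  set P : Finset ℕ → ℝ := fun s => ((∏ p ∈ s, p : ℕ) : ℝ) with hP
  set x : Finset ℕ → ℝ := fun s => Y * z ^ (s.card + 1) / P s with hx
  have hGm : ∀ s ∈ G, ∀ p ∈ s, p ∈ B := by
    intro s hs p hp
    rw [hG, mem_filter, mem_powerset] at hs
    exact hs.1 hp
  have hP1 : ∀ s ∈ G, 1 ≤ P s := by
    intro s hs
    have : 1 ≤ ∏ p ∈ s, p := Nat.succ_le_of_lt (prod_pos (fun p hp => hB1 p (hGm s hs p hp)))
    show (1 : ℝ) ≤ ((∏ p ∈ s, p : ℕ) : ℝ)
    exact_mod_cast this
  have hP2 : ∀ s ∈ G, P s ≤ R := by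
    intro s hs
    have h5 := cs_log_prod s (fun p hp => hB1 p (hGm s hs p hp))
    have h6 : ∑ p ∈ s, Real.log (p : ℝ) ≤ L / 2 := by
      rw [hG, mem_filter] at hs
      exact hs.2
    have h7 : Real.log (P s) ≤ L / 2 := by rw [hP]; simp only; rw [h5]; exact h6
    have h8 : Real.log R = L / 2 := by rw [hR, Real.log_rpow hYpos, hL]; ring
    rw [← h8] at h7
    exact (Real.log_le_log_iff (by have := hP1 s hs; linarith) (by linarith)).1 h7
  have hzP : ∀ s ∈ G, z ^ s.card ≤ P s := by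
    intro s hs
    rw [hP]
    simp only
    rw [Nat.cast_prod, ← prod_const]
    refine prod_le_prod (fun p _ => hz0.le) (fun p hp => ?_)
    have h5 : A ≤ p := (hBm p (hGm s hs p hp)).2.1
    have h6 : (A : ℝ) ≤ p := by exact_mod_cast h5
    linarith
  have hxP : ∀ s ∈ G, x s * P s = Y * z ^ (s.card + 1) := by
    intro s hs
    rw [hx]
    simp only
    have := hP1 s hs
    exact div_mul_cancel₀ _ (by linarith)
  have hx1 : ∀ s ∈ G, R ≤ x s := by
    intro s hs
    have h5 := hP1 s hs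
    have h6 := hP2 s hs
    rw [hx]
    simp only
    rw [le_div_iff₀ (by linarith)]
    have h7 : 1 ≤ z ^ (s.card + 1) := one_le_pow₀ (by linarith)
    calc R * P s ≤ R * R := mul_le_mul_of_nonneg_left h6 (by linarith)
      _ = Y := hsq
      _ = Y * 1 := (mul_one Y).symm
      _ ≤ Y * z ^ (s.card + 1) := mul_le_mul_of_nonneg_left h7 hYpos.le
  have hx2 : ∀ s ∈ G, x s ≤ z * Y := by
    intro s hs
    have h5 := hP1 s hs
    have h6 := hzP s hs
    rw [hx]
    simp only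
    rw [div_le_iff₀ (by linarith), pow_succ]
    calc Y * (z ^ s.card * z) = (Y * z) * z ^ s.card := by ring
      _ ≤ (Y * z) * P s := mul_le_mul_of_nonneg_left h6 (by positivity)
      _ = z * Y * P s := by ring
  have hlogx : ∀ s ∈ G, Real.log (x s) ≤ 2 * L := by
    intro s hs
    have h5 := hx1 s hs
    have h6 : x s ≤ Y * Y := (hx2 s hs).trans (mul_le_mul_of_nonneg_right hYz hYpos.le)
    have h7 := Real.log_le_log (by linarith) h6
    rw [Real.log_mul hYpos.ne' hYpos.ne'] at h7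
    rw [hL]; linarith
  have hxw : ∀ s : Finset ℕ, x s = Y * z * ∏ q ∈ s, (z / q : ℝ) := by
    intro s
    rw [hx, hP]
    simp only
    rw [prod_div_distrib, prod_const, Nat.cast_prod, pow_succ]
    ring
  have hq : ∀ s ∈ G, ∀ q ∈ Pool.Agent.H383.Rich.PB ∅ (x s),
      q.Prime ∧ q % 4 = 1 ∧ x s < q ∧ (q : ℝ) ≤ 2 * x s := by
    intro s hs q hq
    have h5 := hx1 s hs
    have := Pool.Agent.H383.Rich.PB_mem (by linarith) hq
    exact ⟨this.1, this.2.1, this.2.2.2.1, this.2.2.2.2⟩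
  have hqy : ∀ s ∈ G, ∀ q ∈ Pool.Agent.H383.Rich.PB ∅ (x s), y < q := by
    intro s hs q hq'
    have h5 := hx1 s hs
    have h6 := (hq s hs q hq').2.2.1
    have h7 : (y : ℝ) < q := by linarith
    exact_mod_cast h7
  have hcard := cs_sigma_inj G (fun s => Pool.Agent.H383.Rich.PB ∅ (x s)) y
    (fun s hs p hp => (hBm p (hGm s hs p hp)).2.2) hqy
  refine ⟨(G.sigma (fun s => Pool.Agent.H383.Rich.PB ∅ (x s))).image (fun a => insert a.2 a.1),
    ?_, ?_⟩
  · intro S hS
    rw [mem_image] at hS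
    obtain ⟨⟨s, q⟩, hsq', rfl⟩ := hS
    rw [mem_sigma] at hsq'
    obtain ⟨hs, hq'⟩ := hsq'
    simp only at hs hq' ⊢
    have hqq := hq s hs q hq'
    have hqn : q ∉ s := by
      intro hcon
      have h5 := (hBm q (hGm s hs q hcon)).2.2
      have h6 := hqy s hs q hq'
      omega
    have hprod : ((∏ p ∈ insert q s, p : ℕ) : ℝ) = q * P s := by
      rw [prod_insert hqn, Nat.cast_mul]
    have hle : (q : ℝ) * P s ≤ 2 * Y * z ^ (s.card + 1) := by
      have h5 : (q : ℝ) * P s ≤ (2 * x s) * P s :=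
        mul_le_mul_of_nonneg_right hqq.2.2.2 (by have := hP1 s hs; linarith)
      have h6 := hxP s hs
      calc (q : ℝ) * P s ≤ (2 * x s) * P s := h5
        _ = 2 * (x s * P s) := by ring
        _ = 2 * (Y * z ^ (s.card + 1)) := by rw [h6]
        _ = 2 * Y * z ^ (s.card + 1) := by ring
    refine ⟨?_, ?_, ?_⟩
    · intro p hp
      rw [mem_insert] at hp
      rcases hp with rfl | hp
      · exact hqq.1
      · exact (hBm p (hGm s hs p hp)).1
    · rw [hprod, card_insert_of_notMem hqn]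
      exact hle
    · rw [hprod]
      refine hle.trans ?_
      have h5 : z ^ (s.card + 1) ≤ z * R := by
        rw [pow_succ, mul_comm]
        have h6 := (hzP s hs).trans (hP2 s hs)
        exact mul_le_mul_of_nonneg_left h6 hz0.le
      calc 2 * Y * z ^ (s.card + 1) ≤ 2 * Y * (z * R) :=
            mul_le_mul_of_nonneg_left h5 (by positivity)
        _ = Y * (2 * z * R) := by ring
        _ ≤ Y * (R * R) := by
            refine mul_le_mul_of_nonneg_left ?_ hYpos.le
            exact mul_le_mul_of_nonneg_right h2b (by linarith)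
        _ = Y ^ 2 := by rw [hsq]; ring
  · rw [hcard]
    push_cast
    have h5 : ∀ s ∈ G, Y * z / (40 * L) * ∏ q ∈ s, (z / q : ℝ) ≤
        ((Pool.Agent.H383.Rich.PB ∅ (x s)).card : ℝ) := by
      intro s hs
      have h6 := hx1 s hs
      have h7 := hPB (x s) (h2a.trans h6)
      refine le_trans ?_ h7
      have h8 := hlogx s hs
      have h9 : 0 < Real.log (x s) := Real.log_pos (by linarith)
      have h10 : Y * z / (40 * L) * ∏ q ∈ s, (z / q : ℝ) = x s / (40 * L) := by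
        rw [hxw s]; ring
      rw [h10, div_le_div_iff₀ (by linarith) h9]
      have h11 : 0 < x s := by linarith
      calc x s * Real.log (x s) ≤ x s * (2 * L) := mul_le_mul_of_nonneg_left h8 h11.le
        _ = 1 / 20 * x s * (40 * L) := by ring
    have h6 := sum_le_sum h5
    refine le_trans ?_ h6
    rw [← mul_sum]
    have h7 := hM y hy3
    have h8 : 0 ≤ Y * z / (40 * L) := by positivity
    have hLpos : 0 < L := by linarith
    have h9 : (L * η) ^ z ≤ (Real.log y) ^ z :=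
      Real.rpow_le_rpow (by positivity) hlogy1 hz0.le
    have h10 : (L * η) ^ z = η ^ z * L ^ z := by
      rw [← Real.mul_rpow hη0.le hLpos.le]
      congr 1; ring
    calc z / 80 * c * η ^ z * Y * L ^ (z - 1)
        = Y * z / (40 * L) * ((c * (η ^ z * L ^ z)) / 2) := by
          rw [Real.rpow_sub_one hLpos.ne']
          field_simp
          ring
      _ ≤ Y * z / (40 * L) * ((c * (Real.log y) ^ z) / 2) := by
          rw [← h10]
          gcongr
      _ ≤ Y * z / (40 * L) * ((∏ p ∈ B, (1 + z / p)) / 2) := by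
          gcongr
      _ ≤ Y * z / (40 * L) * ∑ s ∈ G, ∏ q ∈ s, (z / q : ℝ) := by
          gcongr

end Pool.Agent.H327R5.PO
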