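import Mathlib
import Pool.Agent.H452R2.PO.Defs
import Pool.Agent.Helper256.KM.Mertens
import Pool.Agent.Helper379.Lower2

set_option autoImplicit false

namespace Pool.Agent.H327R5.PO

open Finset Pool.Agent.H452R2.PO

theorem log_one_add_ge (x : ℝ) (hx : 0 ≤ x) : x - x ^ 2 / 2 ≤ Real.log (1 + x) := by
  refine le_trans ?_ (Real.le_log_one_add_of_nonneg hx)
  rw [le_div_iff₀ (by linarith)]
  nlinarith [mul_nonneg hx hx, mul_nonneg (mul_nonneg hx hx) hx]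

theorem sq_sum (A : ℕ) (hA : 2 ≤ A) (y : ℕ) :
    ∑ p ∈ OQ A y, 1 / ((p:ℝ)) ^ 2 ≤ 2 := by
  refine (sum_le_sum_of_subset_of_nonneg ?_ fun i _ _ => by positivity).trans
    (Pool.Agent.Helper379.Lower1.sum_inv_sq_le y)
  intro p hp
  unfold OQ at hp
  rw [mem_filter, mem_Icc] at hp
  exact mem_Icc.mpr ⟨by omega, hp.1.2⟩

theorem prod_lower (z : ℝ) (hz : 0 < z) (A : ℕ) (hA : 2 ≤ A) (y : ℕ) :
    Real.exp (z * ∑ p ∈ OQ A y, 1 / (p:ℝ) - z ^ 2) ≤ ∏ p ∈ OQ A y, (1 + z / p) := by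
  have h1 : ∏ p ∈ OQ A y, Real.exp (z * (1 / (p:ℝ)) - z ^ 2 / 2 * (1 / (p:ℝ) ^ 2)) ≤
      ∏ p ∈ OQ A y, (1 + z / p) := by
    refine prod_le_prod (fun p _ => (Real.exp_pos _).le) fun p _ => ?_
    have hx : 0 ≤ z / (p:ℝ) := by positivity
    have h2 := log_one_add_ge _ hx
    rw [← Real.le_log_iff_exp_le (by positivity)]
    refine le_trans (le_of_eq ?_) h2
    ring
  refine le_trans ?_ h1
  rw [← Real.exp_sum, sum_sub_distrib, ← mul_sum, ← mul_sum]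
  refine Real.exp_le_exp.mpr ?_
  have h3 := sq_sum A hA y
  have h4 : z ^ 2 / 2 * ∑ p ∈ OQ A y, 1 / ((p:ℝ)) ^ 2 ≤ z ^ 2 / 2 * 2 :=
    mul_le_mul_of_nonneg_left h3 (by positivity)
  linarith

theorem mert_k (z : ℝ) (hz : 0 < z) (A : ℕ) (hA : 2 ≤ A) : ∃ c : ℝ, 0 < c ∧ ∀ y : ℕ, 3 ≤ y →
    c * (Real.log y) ^ z ≤ ∏ p ∈ OQ A y, (1 + z / p) := by
  obtain ⟨C, hC⟩ := Pool.Agent.Helper256.KM.mertens_inv
  refine ⟨Real.exp (-(z * (C + A) + z ^ 2)), Real.exp_pos _, ?_⟩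
  intro y hy
  have hly : 0 < Real.log y := Real.log_pos (by
    have : (3:ℝ) ≤ y := by exact_mod_cast hy
    linarith)
  refine le_trans ?_ (prod_lower z hz A hA y)
  rw [Real.rpow_def_of_pos hly, ← Real.exp_add]
  refine Real.exp_le_exp.mpr ?_
  have h1 := (abs_le.mp (hC y hy)).1
  have h2 : ∑ p ∈ (Finset.Icc 1 y).filter Nat.Prime, (1 : ℝ) / p ≤
      A + ∑ p ∈ OQ A y, 1 / (p:ℝ) := by
    have hsub : (Finset.Icc 1 y).filter Nat.Prime ⊆ (Finset.Icc 1 A) ∪ OQ A y := by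
      intro p hp
      rw [mem_filter, mem_Icc] at hp
      rw [mem_union]
      rcases Nat.lt_or_ge p A with h | h
      · left
        rw [mem_Icc]
        omega
      · right
        unfold OQ
        rw [mem_filter, mem_Icc]
        exact ⟨⟨h, hp.1.2⟩, hp.2⟩
    refine (sum_le_sum_of_subset_of_nonneg hsub fun i _ _ => by positivity).trans ?_
    have h3 : ∑ p ∈ Finset.Icc 1 A, (1:ℝ) / p ≤ A := by
      calc ∑ p ∈ Finset.Icc 1 A, (1:ℝ) / p ≤ ∑ p ∈ Finset.Icc 1 A, (1:ℝ) := by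
            refine sum_le_sum fun p hp => ?_
            rw [mem_Icc] at hp
            have : (1:ℝ) ≤ p := by exact_mod_cast hp.1
            rw [div_le_one (by linarith)]; exact this
        _ = A := by simp
    have h4 : ∑ p ∈ Finset.Icc 1 A ∪ OQ A y, (1:ℝ) / p ≤
        ∑ p ∈ Finset.Icc 1 A, (1:ℝ) / p + ∑ p ∈ OQ A y, (1:ℝ) / p := by
      rw [← sum_union_inter]
      have : 0 ≤ ∑ p ∈ Finset.Icc 1 A ∩ OQ A y, (1:ℝ) / p :=
        sum_nonneg fun p _ => by positivity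
      linarith
    linarith
  have h3 : Real.log (Real.log y) - C - A ≤ ∑ p ∈ OQ A y, 1 / (p:ℝ) := by
    linarith
  have h4 := mul_le_mul_of_nonneg_left h3 hz.le
  linarith

end Pool.Agent.H327R5.PO
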