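import Mathlib
import Pool.Agent.H452R2.PO.Defs

set_option autoImplicit false

namespace Pool.Agent.H327R5.PO

open Filter Pool.Agent.H452R2.PO Pool.Agent.H383.PZ

theorem zeta_pow_one (k : ℕ) : (ArithmeticFunction.zeta ^ k : ArithmeticFunction ℕ) 1 = 1 :=
  (ArithmeticFunction.isMultiplicative_zeta.pow :
    ArithmeticFunction.IsMultiplicative (ArithmeticFunction.zeta ^ k)).map_one

theorem zeta_pow_prime (k : ℕ) {p : ℕ} (hp : p.Prime) :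
    (ArithmeticFunction.zeta ^ k : ArithmeticFunction ℕ) p = k := by
  induction k with
  | zero => rw [pow_zero, ArithmeticFunction.one_apply_ne hp.ne_one]
  | succ k ih =>
    rw [pow_succ, ArithmeticFunction.mul_zeta_apply, Nat.Prime.divisors hp,
      Finset.sum_pair hp.ne_one.symm, zeta_pow_one, ih]
    ring

theorem dk_prod_primes (k : ℕ) (S : Finset ℕ) (hS : ∀ p ∈ S, p.Prime) :
    dk k (∏ p ∈ S, p) = (k : ℝ) ^ S.card := by
  have hm : ArithmeticFunction.IsMultiplicative (ArithmeticFunction.zeta ^ k : ArithmeticFunction ℕ) :=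
    ArithmeticFunction.isMultiplicative_zeta.pow
  have h1 : (ArithmeticFunction.zeta ^ k : ArithmeticFunction ℕ) (∏ p ∈ S, p) = k ^ S.card := by
    rw [hm.map_prod_of_prime S hS, Finset.prod_congr rfl (fun p hp => zeta_pow_prime k (hS p hp)),
      Finset.prod_const]
  unfold dk
  rw [h1]
  push_cast
  ring

private theorem ev_conditions (t C1 Y0 : ℝ) : ∃ K0 : ℝ, ∀ K : ℝ, K0 ≤ K →
    2 ≤ K ∧ 1 ≤ Real.log K ∧ (Real.log K) ^ t ≤ K ^ (1/2:ℝ) ∧ Y0 ≤ K ^ (1/2:ℝ) ∧ C1 ^ 2 ≤ K := by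
  have h1 : ∀ᶠ K : ℝ in atTop, (2:ℝ) ≤ K := eventually_ge_atTop 2
  have h2 : ∀ᶠ K : ℝ in atTop, (1:ℝ) ≤ Real.log K := Real.tendsto_log_atTop.eventually_ge_atTop 1
  have h3 : ∀ᶠ K : ℝ in atTop, (Real.log K) ^ t ≤ K ^ (1/2:ℝ) := by
    have h := (isLittleO_log_rpow_rpow_atTop (s := (1/2:ℝ)) t (by norm_num)).bound (c := 1) one_pos
    filter_upwards [h, h1, h2] with K hK hK1 hK2
    rw [one_mul, Real.norm_of_nonneg (Real.rpow_nonneg (by linarith) _),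
      Real.norm_of_nonneg (Real.rpow_nonneg (by linarith) _)] at hK
    exact hK
  have h4 : ∀ᶠ K : ℝ in atTop, Y0 ≤ K ^ (1/2:ℝ) :=
    (tendsto_rpow_atTop (by norm_num : (0:ℝ) < 1/2)).eventually_ge_atTop Y0
  have h5 : ∀ᶠ K : ℝ in atTop, C1 ^ 2 ≤ K := eventually_ge_atTop _
  obtain ⟨K0, hK0⟩ := (h1.and (h2.and (h3.and (h4.and h5)))).exists_forall_of_atTop
  exact ⟨K0, fun K hK => hK0 K hK⟩

private theorem prod_inj {S T : Finset ℕ} (hS : ∀ p ∈ S, p.Prime) (hT : ∀ p ∈ T, p.Prime)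
    (h : (∏ p ∈ S, p) = ∏ p ∈ T, p) : S = T := by
  rw [← Nat.primeFactors_prod hS, ← Nat.primeFactors_prod hT, h]

theorem zw_ge_one (k : ℕ) (hk : 2 ≤ k) : 1 ≤ zw k := by
  unfold zw
  exact Real.one_le_rpow (by exact_mod_cast (by omega : 1 ≤ k)) (by positivity)

theorem zw_pow (k : ℕ) (hk : 2 ≤ k) (j : ℕ) :
    (zw k ^ j) ^ (-(((k:ℝ) + 1) / (2 * k)) : ℝ) = ((k:ℝ) ^ j)⁻¹ := by
  have h0 : (0:ℝ) ≤ k := by positivity
  have h1 : (0:ℝ) < k := by exact_mod_cast (by omega : 0 < k)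
  unfold zw
  rw [← Real.rpow_natCast ((k:ℝ) ^ (2 * (k:ℝ) / ((k:ℝ) + 1))) j, ← Real.rpow_mul h0,
    ← Real.rpow_mul h0, ← Real.rpow_natCast (k:ℝ) j, ← Real.rpow_neg h0]
  congr 1
  field_simp

theorem sets_k (k : ℕ) (hk : 2 ≤ k)
    (hC : ∃ c Y0 : ℝ, 0 < c ∧ 3 ≤ Y0 ∧ ∀ Y : ℝ, Y0 ≤ Y → ∃ 𝓢 : Finset (Finset ℕ),
      (∀ S ∈ 𝓢, (∀ p ∈ S, p.Prime) ∧
        ((∏ p ∈ S, p : ℕ) : ℝ) ≤ 2 * Y * (zw k) ^ S.card ∧ ((∏ p ∈ S, p : ℕ) : ℝ) ≤ Y ^ 2) ∧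
      c * Y * (Real.log Y) ^ (zw k - 1) ≤ (𝓢.card : ℝ)) :
    ∃ c K0 : ℝ, 0 < c ∧ ∀ K : ℝ, K0 ≤ K → ∃ 𝓜 : Finset ℕ, (𝓜.card : ℝ) ≤ K ∧
      (∀ m ∈ 𝓜, 1 ≤ m ∧ (m:ℝ) ≤ K ^ 3) ∧
      c * K ^ (((k:ℝ) - 1) / (2 * k)) * (Real.log K) ^ ((((k:ℝ) + 1) / (2 * k)) * (zw k - 1)) ≤
        ∑ m ∈ 𝓜, dk k m * (m : ℝ) ^ (-(((k:ℝ) + 1) / (2 * k)) : ℝ) := by
  classical
  obtain ⟨c, Y0, hc, hY0, hfam⟩ := hC
  have hk0 : (0:ℝ) < k := by exact_mod_cast (by omega : 0 < k)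
  have hzw1 := zw_ge_one k hk
  set e : ℝ := ((k:ℝ) + 1) / (2 * k) with he
  have he0 : 0 < e := by rw [he]; positivity
  set t : ℝ := zw k - 1 with ht
  have ht0 : 0 ≤ t := by rw [ht]; linarith
  set c' : ℝ := min c 1 with hc'
  have hc'0 : 0 < c' := lt_min hc one_pos
  have hc'1 : c' ≤ 1 := min_le_right _ _
  have hc'c : c' ≤ c := min_le_left _ _
  set C1 : ℝ := 2 ^ t / c' with hC1
  have h2t : (1:ℝ) ≤ 2 ^ t := Real.one_le_rpow (by norm_num) ht0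
  have hC1one : 1 ≤ C1 := by
    rw [hC1, le_div_iff₀ hc'0]; linarith
  obtain ⟨K0, hK0⟩ := ev_conditions t C1 Y0
  refine ⟨(1 / 2) * (2 * C1) ^ (-e), K0, by positivity, ?_⟩
  intro K hK
  obtain ⟨hK2, hlog1, hlogt, hY0K, hC1K⟩ := hK0 K hK
  have hKpos : 0 < K := by linarith
  have hlogpos : 0 < Real.log K := by linarith
  have hLt : 0 < (Real.log K) ^ t := Real.rpow_pos_of_pos hlogpos _
  have hLt1 : 1 ≤ (Real.log K) ^ t := Real.one_le_rpow hlog1 ht0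
  set Y : ℝ := C1 * K / (Real.log K) ^ t with hY
  have hYpos : 0 < Y := by rw [hY]; positivity
  have hKhalf : K ^ (1/2:ℝ) * K ^ (1/2:ℝ) = K := by
    rw [← Real.rpow_add hKpos]; norm_num
  have hKhpos : 0 < K ^ (1/2:ℝ) := Real.rpow_pos_of_pos hKpos _
  have hYK : K ^ (1/2:ℝ) ≤ Y := by
    rw [hY, le_div_iff₀ hLt]
    calc K ^ (1/2:ℝ) * (Real.log K) ^ t ≤ K ^ (1/2:ℝ) * K ^ (1/2:ℝ) := by gcongr
      _ = K := hKhalf
      _ ≤ C1 * K := by nlinarith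
  have hYY0 : Y0 ≤ Y := le_trans hY0K hYK
  have hlogY : Real.log K / 2 ≤ Real.log Y := by
    have := Real.log_le_log hKhpos hYK
    rw [Real.log_rpow hKpos] at this
    linarith
  have hlogYt : (Real.log K / 2) ^ t ≤ (Real.log Y) ^ t :=
    Real.rpow_le_rpow (by positivity) hlogY ht0
  obtain ⟨𝓢, hS, hcard⟩ := hfam Y hYY0
  have hKcard : K ≤ (𝓢.card : ℝ) := by
    refine le_trans ?_ hcard
    have h1 : c' * Y * (Real.log K / 2) ^ t = K := by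
      rw [Real.div_rpow hlogpos.le (by norm_num), hY, hC1]
      field_simp
    calc K = c' * Y * (Real.log K / 2) ^ t := h1.symm
      _ ≤ c * Y * (Real.log Y) ^ t := by gcongr
  have hfl : ⌊K⌋₊ ≤ 𝓢.card := by
    have : ((⌊K⌋₊ : ℕ) : ℝ) ≤ (𝓢.card : ℝ) := le_trans (Nat.floor_le hKpos.le) hKcard
    exact_mod_cast this
  obtain ⟨𝓣, hTS, hTcard⟩ := Finset.exists_subset_card_eq hfl
  have hinj : Set.InjOn (fun S : Finset ℕ => ∏ p ∈ S, p) (𝓣 : Set (Finset ℕ)) := by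
    intro S hS1 T hT1 h
    exact prod_inj (fun p hp => ((hS S (hTS hS1)).1 p hp))
      (fun p hp => ((hS T (hTS hT1)).1 p hp)) h
  refine ⟨𝓣.image (fun S : Finset ℕ => ∏ p ∈ S, p), ?_, ?_, ?_⟩
  · rw [Finset.card_image_of_injOn hinj, hTcard]
    exact Nat.floor_le hKpos.le
  · intro m hm
    obtain ⟨S, hST, rfl⟩ := Finset.mem_image.mp hm
    have hS' := hS S (hTS hST)
    refine ⟨?_, ?_⟩
    · exact Nat.one_le_iff_ne_zero.mpr
        (Finset.prod_ne_zero_iff.mpr (fun p hp => (hS'.1 p hp).ne_zero))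
    · refine le_trans hS'.2.2 ?_
      have hYle : Y ≤ C1 * K := by
        rw [hY, div_le_iff₀ hLt]
        have : 0 ≤ C1 * K := by positivity
        nlinarith
      calc Y ^ 2 ≤ (C1 * K) ^ 2 := by gcongr
        _ = C1 ^ 2 * K ^ 2 := by ring
        _ ≤ K * K ^ 2 := by gcongr
        _ = K ^ 3 := by ring
  · rw [Finset.sum_image hinj]
    have hterm : ∀ S ∈ 𝓣, (2 * Y) ^ (-e) ≤
        dk k (∏ p ∈ S, p) * ((∏ p ∈ S, p : ℕ) : ℝ) ^ (-e) := by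
      intro S hST
      have hS' := hS S (hTS hST)
      rw [dk_prod_primes k S hS'.1]
      have hPpos : 0 < ((∏ p ∈ S, p : ℕ) : ℝ) := by
        have : 0 < ∏ p ∈ S, p := Finset.prod_pos (fun p hp => (hS'.1 p hp).pos)
        exact_mod_cast this
      have h1 : (2 * Y * zw k ^ S.card) ^ (-e) ≤ ((∏ p ∈ S, p : ℕ) : ℝ) ^ (-e) :=
        Real.rpow_le_rpow_of_nonpos hPpos hS'.2.1 (by linarith)
      have h2 : (2 * Y * zw k ^ S.card) ^ (-e) = (2 * Y) ^ (-e) * ((k:ℝ) ^ S.card)⁻¹ := by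
        rw [Real.mul_rpow (by positivity) (pow_nonneg (by linarith) _), he, zw_pow k hk]
      have h3 : (0:ℝ) < (k:ℝ) ^ S.card := by positivity
      calc (2 * Y) ^ (-e) = (k:ℝ) ^ S.card * ((2 * Y) ^ (-e) * ((k:ℝ) ^ S.card)⁻¹) := by
            field_simp
        _ = (k:ℝ) ^ S.card * (2 * Y * zw k ^ S.card) ^ (-e) := by rw [h2]
        _ ≤ (k:ℝ) ^ S.card * ((∏ p ∈ S, p : ℕ) : ℝ) ^ (-e) := by gcongr
    have hsum : (⌊K⌋₊ : ℝ) * ((2 * Y) ^ (-e)) ≤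
        ∑ S ∈ 𝓣, dk k (∏ p ∈ S, p) * ((∏ p ∈ S, p : ℕ) : ℝ) ^ (-e) := by
      rw [← hTcard, ← nsmul_eq_mul, ← Finset.sum_const]
      exact Finset.sum_le_sum hterm
    refine le_trans ?_ hsum
    have hfloor : K / 2 ≤ (⌊K⌋₊ : ℝ) := by
      have := Nat.lt_floor_add_one K
      linarith
    have hYrw : (2 * Y) ^ (-e) = (2 * C1) ^ (-e) * (K ^ (-e) * (Real.log K) ^ (e * t)) := by
      have : 2 * Y = (2 * C1) * (K * ((Real.log K) ^ t)⁻¹) := by rw [hY]; field_simp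
      have hL0 : 0 ≤ ((Real.log K) ^ t)⁻¹ := inv_nonneg.mpr hLt.le
      rw [this, Real.mul_rpow (by positivity) (by positivity), Real.mul_rpow hKpos.le hL0,
        Real.inv_rpow hLt.le, ← Real.rpow_mul hlogpos.le, ← Real.rpow_neg hlogpos.le]
      congr 3
      ring
    have hKq : K ^ (((k:ℝ) - 1) / (2 * k)) = K * K ^ (-e) := by
      conv_rhs => rw [← Real.rpow_one K]
      rw [← Real.rpow_mul hKpos.le, ← Real.rpow_add hKpos]
      congr 1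
      rw [he]
      field_simp
      ring
    calc (1 / 2) * (2 * C1) ^ (-e) * K ^ (((k:ℝ) - 1) / (2 * k)) * (Real.log K) ^ (e * t)
        = (K / 2) * (((2 * C1) ^ (-e) * (K ^ (-e) * (Real.log K) ^ (e * t)))) := by
          rw [hKq]; ring
      _ = (K / 2) * ((2 * Y) ^ (-e)) := by rw [hYrw]
      _ ≤ (⌊K⌋₊ : ℝ) * ((2 * Y) ^ (-e)) := by gcongr

end Pool.Agent.H327R5.PO
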